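import Pool.Agent.Helper60.FF.StmtsC

/-!
# FF: module L4, orders are divisible by `m` at points where the constant does not vanish
-/

set_option autoImplicit false

namespace Pool.Agent.Helper60.FF

open Polynomial

theorem l4_sp {F : Type} [Field F] (w : F) (φ : Polynomial F) : sp w (φ.map C) = φ := by
  unfold sp
  rw [Polynomial.map_map]
  have h : (evalRingHom w).comp C = RingHom.id F := by
    ext x
    simp
  rw [h, Polynomial.map_id]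

theorem l4_fin {p : ℕ} [Fact p.Prime] (E₀ : IntermediateField ℚ_[p] ℂ_[p])
    (h0 : FiniteDimensional ℚ_[p] E₀) (S : Set ℂ_[p]) (hS : S.Finite)
    (hint : ∀ x ∈ S, IsAlgebraic ℚ_[p] x) :
    ∃ E : IntermediateField ℚ_[p] ℂ_[p], FiniteDimensional ℚ_[p] E ∧ E₀ ≤ E ∧ ∀ x ∈ S, x ∈ E := by
  have : Finite S := hS.to_subtype
  have h1 : FiniteDimensional ℚ_[p] (IntermediateField.adjoin ℚ_[p] S) :=
    IntermediateField.finiteDimensional_adjoin fun x hx => (hint x hx).isIntegral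
  refine ⟨E₀ ⊔ IntermediateField.adjoin ℚ_[p] S, IntermediateField.finiteDimensional_sup _ _,
    le_sup_left, fun x hx => ?_⟩
  exact (le_sup_right : IntermediateField.adjoin ℚ_[p] S ≤ _) (IntermediateField.subset_adjoin _ _ hx)

theorem l4_ovC {p : ℕ} [Fact p.Prime] (A : Subfield ℂ_[p]) (E : IntermediateField ℚ_[p] ℂ_[p])
    (c : A) (hc : (c : ℂ_[p]) ∈ E) : Ov A E (RatFunc.C c) := by
  refine ⟨C c, 1, one_ne_zero, ?_, ?_, ?_⟩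
  · intro j
    rw [coeff_C]
    split_ifs
    · exact hc
    · exact E.zero_mem
  · intro j
    rw [coeff_one]
    split_ifs
    · exact E.one_mem
    · exact E.zero_mem
  · rw [map_one, mul_one, RatFunc.algebraMap_C]

/-- the norm of the value of `h` at a point with reduction `φ` -/
theorem l4_norm {p n : ℕ} [Fact p.Prime] (hRDU : ST_RDU) (hEVH : ST_EVH) (K : KD p n)
    (φ : Polynomial (RF p)) (c c' : K.A)
    (hc : ‖(c : ℂ_[p])‖ ≤ 1) (hc' : ‖(c' : ℂ_[p])‖ ≤ 1) (hφc : φ.eval (res (c : ℂ_[p])) ≠ 0)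
    (hφc' : φ.eval (res (c' : ℂ_[p])) ≠ 0) (N : ℕ) (hN : 0 < N)
    (E : IntermediateField ℚ_[p] ℂ_[p]) (π : ℂ_[p]) (f : ℕ) (hE : LF E π f) (hE0 : K.E₀ ≤ E)
    (hcE : (c : ℂ_[p]) ∈ E) (hcE' : (c' : ℂ_[p]) ∈ E) (τ : ℂ_[p]) (hτE : τ ∈ E) (hτA : τ ∉ K.A)
    (hred : Red (K.χ τ) φ) :
    ∃ j : ℤ, ‖ev K.A τ (K.H N (RatFunc.C c) / K.H N (RatFunc.C c'))‖ = ‖π‖ ^ ((N : ℤ) * j) := by
  obtain ⟨e, he, _, heC, _, _⟩ := hEVH p K.A K.acl τ hτA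
  have hevc : ev K.A τ (RatFunc.C c) = c := by rw [← he, heC]
  have hevc' : ev K.A τ (RatFunc.C c') = c' := by rw [← he, heC]
  obtain ⟨_, _, _, _, h5⟩ := hRDU p (K.χ τ)
  obtain ⟨h1, h2, _⟩ := h5 φ c c' hred hc hc' hφc
  obtain ⟨h3, h4, _⟩ := h5 φ c' c hred hc' hc hφc'
  have hn : ‖(K.χ τ).eval (c : ℂ_[p])‖ = ‖(K.χ τ).eval (c' : ℂ_[p])‖ := le_antisymm h4 h2
  obtain ⟨w, hwE, hw0, hw⟩ := K.kum E hE.fin hE0 (RatFunc.C c) (RatFunc.C c')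
    (l4_ovC K.A E c hcE) (l4_ovC K.A E c' hcE') τ hτE hτA N hN (by rw [hevc]; exact h1)
    (by rw [hevc']; exact h3)
  rw [hevc, hevc'] at hw
  obtain ⟨j, hj⟩ := hE.val w hwE hw0
  have hH : K.H N (RatFunc.C c) ≠ 0 := K.H0 _ _ hN
  have hH' : K.H N (RatFunc.C c') ≠ 0 := K.H0 _ _ hN
  have hev0 : ev K.A τ (K.H N (RatFunc.C c)) ≠ 0 := by
    rw [← he]; exact (map_ne_zero e).2 hH
  have hev0' : ev K.A τ (K.H N (RatFunc.C c')) ≠ 0 := by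
    rw [← he]; exact (map_ne_zero e).2 hH'
  have hdiv : ev K.A τ (K.H N (RatFunc.C c) / K.H N (RatFunc.C c')) =
      ev K.A τ (K.H N (RatFunc.C c)) / ev K.A τ (K.H N (RatFunc.C c')) := by
    rw [← he, ← he, ← he, map_div₀]
  have hnorm : ‖ev K.A τ (K.H N (RatFunc.C c'))‖ =
      ‖ev K.A τ (K.H N (RatFunc.C c))‖ * ‖w‖ ^ N := by
    have h6 := congrArg norm hw
    rw [norm_mul, norm_mul, norm_mul, norm_pow, hn, mul_assoc] at h6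
    exact mul_left_cancel₀ (norm_ne_zero_iff.2 h3) h6
  refine ⟨-j, ?_⟩
  have hw' : ‖w‖ ≠ 0 := norm_ne_zero_iff.2 hw0
  have h7 : ‖ev K.A τ (K.H N (RatFunc.C c))‖ ≠ 0 := norm_ne_zero_iff.2 hev0
  rw [hdiv, norm_div, hnorm, div_mul_eq_div_div, div_self h7, one_div, hj]
  rw [← zpow_natCast, ← zpow_mul, ← zpow_neg]
  congr 1
  ring

theorem st_L4 (hEXI : ST_EXI) (hRAMX : ST_RAMX) (hNRV : ST_NRV) (hLFX : ST_LFX) (hRFA : ST_RFA)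
    (hRDU : ST_RDU) (hEVH : ST_EVH) (hORD : ST_ORD) : ST_L4 := by
  intro p n _ hPP K v r₀ φ hr₀ hCT c c' hc hc' hφc hφc' m hm
  set l : ℕ := 4 * n + 2 with hl
  have hlpos : 0 < l := by omega
  have hml : 0 < m * l := Nat.mul_pos hm hlpos
  set h : RatFunc K.A := K.H (m * l) (RatFunc.C c) / K.H (m * l) (RatFunc.C c') with hh
  have hH : K.H (m * l) (RatFunc.C c) ≠ 0 := K.H0 _ _ hml
  have hH' : K.H (m * l) (RatFunc.C c') ≠ 0 := K.H0 _ _ hml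
  have hh0 : h ≠ 0 := div_ne_zero hH hH'
  obtain ⟨ε, Cc, hε, hCc, hnrv⟩ := (hNRV p K.A K.acl h hh0).1 v
  -- the base field
  obtain ⟨E₁, hE1, hE01, hS⟩ := l4_fin K.E₀ K.fin₀ {(v : ℂ_[p]), (c : ℂ_[p]), (c' : ℂ_[p])}
    (by simp) (by
      intro x hx
      rcases hx with rfl | rfl | rfl
      · exact K.alg _ v.2
      · exact K.alg _ c.2
      · exact K.alg _ c'.2)
  have hvE : (v : ℂ_[p]) ∈ E₁ := hS _ (by simp)
  have hcE : (c : ℂ_[p]) ∈ E₁ := hS _ (by simp)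
  have hcE' : (c' : ℂ_[p]) ∈ E₁ := hS _ (by simp)
  obtain ⟨_, π₁, hπA, f₁, hLF1⟩ := hLFX p K.A K.acl E₁ hE1
  -- the two discs
  obtain ⟨k, hk⟩ := exists_pow_lt_of_lt_one (lt_min hr₀ hε) hLF1.lt
  have hk1 : ‖π₁‖ ^ k < r₀ := hk.trans_le (min_le_left _ _)
  have hk2 : ‖π₁‖ ^ k < ε := hk.trans_le (min_le_right _ _)
  have hk3 : ‖π₁‖ ^ (k + 1) < ‖π₁‖ ^ k := by
    rw [pow_succ]
    exact mul_lt_of_lt_one_right (pow_pos hLF1.pos k) hLF1.lt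
  have hπ0 : π₁ ≠ 0 := norm_pos_iff.1 hLF1.pos
  have hdisc : ∀ k' : ℕ, k ≤ k' → ∃ B : Set (RF p), B.Finite ∧
      ∀ (E : IntermediateField ℚ_[p] ℂ_[p]) (π : ℂ_[p]) (f : ℕ),
      LF E π f → E₁ ≤ E → ‖π‖ ^ l = ‖π₁‖ → ∀ w ∈ Fq p f, w ∉ B → w ≠ 0 →
      ∃ τ ∈ E, τ ∉ K.A ∧ ‖τ - v‖ = ‖π₁‖ ^ k' ∧ Red (K.χ τ) φ := by
    intro k' hk'
    have hle : ‖π₁‖ ^ k' ≤ ‖π₁‖ ^ k := pow_le_pow_of_le_one hLF1.pos.le hLF1.lt.le hk'
    have hϖ0 : (⟨π₁, hπA⟩ : K.A) ^ k' ≠ 0 := by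
      refine pow_ne_zero _ ?_
      intro h0
      exact hπ0 (congrArg Subtype.val h0)
    have hcoe : (((⟨π₁, hπA⟩ : K.A) ^ k' : K.A) : ℂ_[p]) = π₁ ^ k' := by
      rw [SubmonoidClass.coe_pow]
    have hnϖ : ‖(((⟨π₁, hπA⟩ : K.A) ^ k' : K.A) : ℂ_[p])‖ = ‖π₁‖ ^ k' := by
      rw [hcoe, norm_pow]
    have hct := hCT _ hϖ0 (by rw [hnϖ]; exact hle.trans_lt hk1)
    obtain ⟨B, hB, hB'⟩ := hEXI p n hPP K v _ hϖ0 _ hct
    refine ⟨B, hB, ?_⟩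
    intro E π f hLF hE1E hπ w hw hwB hw0
    obtain ⟨τ, hτE, hτA, h1, h2, h3⟩ := hB' E₁ π₁ f₁ hLF1 hE01 hvE (by
      rw [hcoe]; exact pow_mem hLF1.mem k') E π f l hLF hE1E hlpos (dvd_refl _) hπ w hw hwB
    refine ⟨τ, hτE, hτA, ?_, ?_⟩
    · have h4 : ‖(τ - (v : ℂ_[p])) / (((⟨π₁, hπA⟩ : K.A) ^ k' : K.A) : ℂ_[p])‖ = 1 := by
        rw [norm_eq_one_iff h1, h2]
        exact hw0
      rw [norm_div, hnϖ, div_eq_one_iff_eq (pow_ne_zero _ (norm_ne_zero_iff.2 hπ0))] at h4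
      exact h4
    · rw [l4_sp] at h3
      exact h3
  obtain ⟨B, hB, hpB⟩ := hdisc k le_rfl
  obtain ⟨B', hB', hpB'⟩ := hdisc (k + 1) (by omega)
  -- the residue field
  obtain ⟨_, _, hcard, _⟩ := hRFA p
  have hp1 : 1 < p := (Fact.out : p.Prime).one_lt
  have hfin : (B ∪ B' ∪ {0}).Finite := (hB.union hB').union (Set.finite_singleton 0)
  obtain ⟨f, hf1, hfpos, w, hwF, hwB⟩ : ∃ f : ℕ, f₁ ∣ f ∧ 0 < f ∧ ∃ w ∈ Fq p f,
      w ∉ B ∪ B' ∪ {0} := by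
    refine ⟨f₁ * (hfin.toFinset.card + 1), dvd_mul_right _ _,
      Nat.mul_pos hLF1.fpos (by omega), ?_⟩
    by_contra hcon
    push Not at hcon
    obtain ⟨hF1, hF2⟩ := hcard (f₁ * (hfin.toFinset.card + 1))
      (Nat.mul_pos hLF1.fpos (by omega))
    have h1 : ((Fq p (f₁ * (hfin.toFinset.card + 1)) : Subfield (RF p)) : Set (RF p)) ⊆
        B ∪ B' ∪ {0} := hcon
    have h2 := Set.ncard_le_ncard h1 hfin
    have h3 : ((Fq p (f₁ * (hfin.toFinset.card + 1)) : Subfield (RF p)) : Set (RF p)).ncard =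
        p ^ (f₁ * (hfin.toFinset.card + 1)) := hF2
    rw [h3, Set.ncard_eq_toFinset_card _ hfin] at h2
    have h4 : f₁ * (hfin.toFinset.card + 1) < p ^ (f₁ * (hfin.toFinset.card + 1)) :=
      Nat.lt_pow_self hp1
    have h5 : hfin.toFinset.card + 1 ≤ f₁ * (hfin.toFinset.card + 1) :=
      Nat.le_mul_of_pos_left _ hLF1.fpos
    omega
  have hwB1 : w ∉ B := fun h1 => hwB (Or.inl (Or.inl h1))
  have hwB2 : w ∉ B' := fun h1 => hwB (Or.inl (Or.inr h1))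
  have hw0 : w ≠ 0 := fun h1 => hwB (Or.inr h1)
  -- the extension
  obtain ⟨π, hπ⟩ := IsAlgClosed.exists_pow_nat_eq π₁ hlpos
  obtain ⟨E, hE1E, hLF⟩ := hRAMX p E₁ π₁ f₁ hLF1 f l π hf1 hfpos hlpos hπ
  have hπn : ‖π‖ ^ l = ‖π₁‖ := by rw [← norm_pow, hπ]
  obtain ⟨τ₁, hτ1E, hτ1A, hτ1n, hτ1r⟩ := hpB E π f hLF hE1E hπn w hwF hwB1 hw0
  obtain ⟨τ₂, hτ2E, hτ2A, hτ2n, hτ2r⟩ := hpB' E π f hLF hE1E hπn w hwF hwB2 hw0
  obtain ⟨j₁, hj1⟩ := l4_norm hRDU hEVH K φ c c' hc hc' hφc hφc' (m * l) hml E π f hLF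
    (hE01.trans hE1E) (hE1E hcE) (hE1E hcE') τ₁ hτ1E hτ1A hτ1r
  obtain ⟨j₂, hj2⟩ := l4_norm hRDU hEVH K φ c c' hc hc' hφc hφc' (m * l) hml E π f hLF
    (hE01.trans hE1E) (hE1E hcE) (hE1E hcE') τ₂ hτ2E hτ2A hτ2r
  have hv1 := hnrv τ₁ hτ1A (by rw [hτ1n]; exact hk2)
  have hv2 := hnrv τ₂ hτ2A (by rw [hτ2n]; exact hk3.trans hk2)
  rw [hτ1n, hj1] at hv1
  rw [hτ2n, hj2] at hv2
  set a : ℤ := ordv K.A v h with ha
  have hkey : (l : ℤ) * a = ((m * l : ℕ) : ℤ) * (j₂ - j₁) := by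
    have h1 : ‖π‖ ^ ((l : ℤ) * a) = ‖π‖ ^ (((m * l : ℕ) : ℤ) * (j₂ - j₁)) := by
      have h2 : ‖π‖ ^ ((l : ℤ) * a) = ‖π₁‖ ^ a := by
        rw [zpow_mul, zpow_natCast, hπn]
      have h3 : (‖π₁‖ ^ (k + 1)) ^ a = (‖π₁‖ ^ k) ^ a * ‖π₁‖ ^ a := by
        rw [pow_succ, mul_zpow]
      rw [h3, ← mul_assoc, ← hv1] at hv2
      have h4 : ‖π‖ ^ (((m * l : ℕ) : ℤ) * j₁) ≠ 0 := zpow_ne_zero _ hLF.pos.ne'
      rw [h2]
      refine mul_left_cancel₀ h4 ?_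
      rw [← hv2, ← zpow_add₀ hLF.pos.ne']
      congr 1
      ring
    exact zpow_right_injective₀ hLF.pos hLF.lt.ne h1
  have hma : (m : ℤ) ∣ a := by
    refine ⟨j₂ - j₁, ?_⟩
    have hl0 : (l : ℤ) ≠ 0 := by exact_mod_cast hlpos.ne'
    refine mul_left_cancel₀ hl0 ?_
    rw [hkey]
    push_cast
    ring
  -- back to `m`
  obtain ⟨o1, o2, o3, _, _⟩ := hORD p K.A
  obtain ⟨g, hg⟩ := K.cls m l (RatFunc.C c) hm hlpos
  obtain ⟨g', hg'⟩ := K.cls m l (RatFunc.C c') hm hlpos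
  have hHm : K.H m (RatFunc.C c) ≠ 0 := K.H0 _ _ hm
  have hHm' : K.H m (RatFunc.C c') ≠ 0 := K.H0 _ _ hm
  have hg0 : g ≠ 0 := by
    rintro rfl
    rw [zero_pow hm.ne', mul_zero] at hg
    exact hH hg
  have hg0' : g' ≠ 0 := by
    rintro rfl
    rw [zero_pow hm.ne', mul_zero] at hg'
    exact hH' hg'
  have ha' : a = (ordv K.A v (K.H m (RatFunc.C c)) + m * ordv K.A v g) -
      (ordv K.A v (K.H m (RatFunc.C c')) + m * ordv K.A v g') := by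
    rw [ha, hh, div_eq_mul_inv, o1 v _ _ hH (inv_ne_zero hH'), o2 v _ hH', hg, hg',
      o1 v _ _ hHm (pow_ne_zero _ hg0), o1 v _ _ hHm' (pow_ne_zero _ hg0'), o3 v _ _ hg0,
      o3 v _ _ hg0']
    ring
  have hfinal : ordv K.A v (K.H m (RatFunc.C c)) - ordv K.A v (K.H m (RatFunc.C c')) =
      a - m * (ordv K.A v g - ordv K.A v g') := by
    rw [ha']
    ring
  rw [hfinal]
  exact dvd_sub hma (dvd_mul_right _ _)

end Pool.Agent.Helper60.FF
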