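import Pool.Agent.Helper41.FF.L4

/-!
# FF: module L5, `χ τ` is analytic up to a factor on a good disc
-/

set_option autoImplicit false

namespace Pool.Agent.Helper60.FF

open Polynomial

section

variable {p : ℕ} [hp : Fact p.Prime]

theorem l5_nat (i : ℕ) : ‖((i : ℕ) : ℂ_[p])‖ ≤ 1 := (mem_OO _).1 (natCast_mem (OO p) i)

theorem l5_mul_le {x y : ℂ_[p]} (hx : ‖x‖ ≤ 1) (hy : ‖y‖ ≤ 1) : ‖x * y‖ ≤ 1 :=
  (OO p).mul_mem x y hx hy

theorem l5_res_sum {ι : Type} (s : Finset ι) (f : ι → ℂ_[p]) (h : ∀ i ∈ s, ‖f i‖ ≤ 1) :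
    ‖∑ i ∈ s, f i‖ ≤ 1 ∧ res (∑ i ∈ s, f i) = ∑ i ∈ s, res (f i) := by
  classical
  induction s using Finset.induction_on with
  | empty =>
    refine ⟨?_, ?_⟩
    · rw [Finset.sum_empty, norm_zero]
      exact zero_le_one
    · rw [Finset.sum_empty, Finset.sum_empty, res_zero]
  | insert a s ha ih =>
    obtain ⟨h1, h2⟩ := ih fun i hi => h i (Finset.mem_insert_of_mem hi)
    have h3 := h a (Finset.mem_insert_self a s)
    rw [Finset.sum_insert ha, Finset.sum_insert ha]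
    refine ⟨(OO p).add_mem _ _ h3 h1, ?_⟩
    rw [res_add h3 h1, h2]

/-- the number of natural numbers in `s` which are roots -/
theorem l5_card {F : Type} [Field F] (φ : Polynomial F) (hφ : φ ≠ 0) (n : ℕ)
    (hn : φ.natDegree ≤ n) (s : Finset ℕ) (hs : Set.InjOn (fun i : ℕ => (i : F)) s)
    (h : ∀ i ∈ s, φ.eval (i : F) = 0) : s.card ≤ n := by
  classical
  have h1 : (s.image (fun i : ℕ => (i : F))).card = s.card := Finset.card_image_of_injOn hs
  have h2 : s.image (fun i : ℕ => (i : F)) ⊆ φ.roots.toFinset := by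
    intro x hx
    obtain ⟨i, hi, rfl⟩ := Finset.mem_image.1 hx
    rw [Multiset.mem_toFinset, mem_roots hφ]
    exact h i hi
  rw [← h1]
  exact (Finset.card_le_card h2).trans ((Multiset.toFinset_card_le _).trans
    ((card_roots' φ).trans hn))

theorem l5_inj {n : ℕ} (hPP : PP p n) (s : Finset ℕ) (hs : ∀ i ∈ s, i < 4 * n ^ 2 + 2 * n) :
    Set.InjOn (fun i : ℕ => (i : RF p)) s := by
  intro i hi j hj hij
  have h1 : (i : RF p) = (j : RF p) := hij
  rw [CharP.natCast_eq_natCast (RF p) p] at h1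
  have h2 := hs i hi
  have h3 := hs j hj
  have h4 := hPP.big
  have h5 : i < p := by nlinarith
  have h6 : j < p := by nlinarith
  exact Nat.ModEq.eq_of_lt_of_lt h1 h5 h6

theorem l5_tsum (g : ℕ → ℂ_[p]) (hg : ∀ k, ‖g k‖ ≤ 1) (y : ℂ_[p]) (hy : ‖y‖ < 1) :
    Summable (fun k => g k * y ^ k) ∧ ‖∑' k, g k * y ^ k‖ ≤ 1 ∧
      res (∑' k, g k * y ^ k) = res (g 0) := by
  have hsum : ∀ g : ℕ → ℂ_[p], (∀ k, ‖g k‖ ≤ 1) → Summable (fun k => g k * y ^ k) := by
    intro g hg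
    refine Summable.of_norm_bounded (summable_geometric_of_lt_one (norm_nonneg y) hy) ?_
    intro k
    rw [norm_mul, norm_pow]
    exact mul_le_of_le_one_left (pow_nonneg (norm_nonneg y) k) (hg k)
  have hle : ∀ g : ℕ → ℂ_[p], (∀ k, ‖g k‖ ≤ 1) → ‖∑' k, g k * y ^ k‖ ≤ 1 := by
    intro g hg
    have hT := (hsum g hg).hasSum.tendsto_sum_nat
    have hcl : IsClosed {x : ℂ_[p] | ‖x‖ ≤ 1} := isClosed_le continuous_norm continuous_const
    refine hcl.mem_of_tendsto hT (Filter.Eventually.of_forall fun N => ?_)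
    refine (l5_res_sum (Finset.range N) _ fun k _ => ?_).1
    rw [norm_mul, norm_pow]
    exact (mul_le_of_le_one_left (pow_nonneg (norm_nonneg y) k) (hg k)).trans
      (pow_le_one₀ (norm_nonneg y) hy.le)
  refine ⟨hsum g hg, hle g hg, ?_⟩
  have h1 : ∑' k, g k * y ^ k = g 0 + y * ∑' k, g (k + 1) * y ^ k := by
    rw [(hsum g hg).tsum_eq_zero_add]
    rw [pow_zero, mul_one, ← tsum_mul_left]
    congr 1
    refine tsum_congr fun k => ?_
    rw [pow_succ]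
    ring
  rw [res_eq_iff (hle g hg) (hg 0), h1, add_sub_cancel_left, norm_mul]
  have h2 := hle (fun k => g (k + 1)) fun k => hg (k + 1)
  calc ‖y‖ * ‖∑' k, g (k + 1) * y ^ k‖ ≤ ‖y‖ * 1 :=
        mul_le_mul_of_nonneg_left h2 (norm_nonneg y)
    _ < 1 := by rw [mul_one]; exact hy

/-- `P` is integral over `E` with reduction `P'` -/
def l5_Gd (E : IntermediateField ℚ_[p] ℂ_[p]) (P : Polynomial ℂ_[p]) (P' : Polynomial (RF p)) :
    Prop := ∀ j, P.coeff j ∈ E ∧ ‖P.coeff j‖ ≤ 1 ∧ res (P.coeff j) = P'.coeff j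

theorem l5_Gd_mul {E : IntermediateField ℚ_[p] ℂ_[p]} {P Q : Polynomial ℂ_[p]}
    {P' Q' : Polynomial (RF p)} (hP : l5_Gd E P P') (hQ : l5_Gd E Q Q') :
    l5_Gd E (P * Q) (P' * Q') := by
  intro j
  have h := l5_res_sum (Finset.HasAntidiagonal.antidiagonal j) (fun x => P.coeff x.1 * Q.coeff x.2)
    fun x _ => l5_mul_le (hP x.1).2.1 (hQ x.2).2.1
  rw [coeff_mul, coeff_mul]
  refine ⟨sum_mem fun x _ => mul_mem (hP x.1).1 (hQ x.2).1, h.1, ?_⟩
  rw [h.2]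
  refine Finset.sum_congr rfl fun x _ => ?_
  rw [res_mul (hP x.1).2.1 (hQ x.2).2.1, (hP x.1).2.2, (hQ x.2).2.2]

theorem l5_Gd_one {E : IntermediateField ℚ_[p] ℂ_[p]} : l5_Gd E 1 1 := by
  intro j
  rw [coeff_one, coeff_one]
  split_ifs
  · exact ⟨E.one_mem, by rw [norm_one], res_one⟩
  · exact ⟨E.zero_mem, by rw [norm_zero]; exact zero_le_one, res_zero⟩

theorem l5_Gd_prod {E : IntermediateField ℚ_[p] ℂ_[p]} {ι : Type} (s : Finset ι)
    (P : ι → Polynomial ℂ_[p]) (P' : ι → Polynomial (RF p)) (h : ∀ i ∈ s, l5_Gd E (P i) (P' i)) :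
    l5_Gd E (∏ i ∈ s, P i) (∏ i ∈ s, P' i) := by
  classical
  induction s using Finset.induction_on with
  | empty => rw [Finset.prod_empty, Finset.prod_empty]; exact l5_Gd_one
  | insert a s ha ih =>
    rw [Finset.prod_insert ha, Finset.prod_insert ha]
    exact l5_Gd_mul (h a (Finset.mem_insert_self a s))
      (ih fun i hi => h i (Finset.mem_insert_of_mem hi))

theorem l5_Gd_C {E : IntermediateField ℚ_[p] ℂ_[p]} {x : ℂ_[p]} (hx : x ∈ E) (h : ‖x‖ ≤ 1) :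
    l5_Gd E (C x) (C (res x)) := by
  intro j
  rw [coeff_C, coeff_C]
  split_ifs
  · exact ⟨hx, h, rfl⟩
  · exact ⟨E.zero_mem, by rw [norm_zero]; exact zero_le_one, res_zero⟩

theorem l5_Gd_X {E : IntermediateField ℚ_[p] ℂ_[p]} {x : ℂ_[p]} (hx : x ∈ E) (h : ‖x‖ ≤ 1) :
    l5_Gd E (X - C x) (X - C (res x)) := by
  intro j
  rw [coeff_sub, coeff_sub, coeff_X, coeff_X]
  have h1 := l5_Gd_C hx h j
  split_ifs with h2
  · refine ⟨E.sub_mem E.one_mem h1.1, (OO p).sub_mem (OO p).one_mem h1.2.1, ?_⟩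
    rw [res_sub (by rw [norm_one]) h1.2.1, res_one, h1.2.2]
  · refine ⟨E.sub_mem E.zero_mem h1.1, (OO p).sub_mem (OO p).zero_mem h1.2.1, ?_⟩
    rw [res_sub (by rw [norm_zero]; exact zero_le_one) h1.2.1, res_zero, h1.2.2]

theorem l5_Gd_basis {E : IntermediateField ℚ_[p] ℂ_[p]} {m : ℕ} (e : Fin m → ℕ)
    (he : Function.Injective fun a => ((e a : ℕ) : RF p)) (a : Fin m) :
    l5_Gd E (Lagrange.basis Finset.univ (fun b => ((e b : ℕ) : ℂ_[p])) a)
      (Lagrange.basis Finset.univ (fun b => ((e b : ℕ) : RF p)) a) := by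
  classical
  unfold Lagrange.basis
  refine l5_Gd_prod _ _ _ fun b hb => ?_
  have hab : b ≠ a := (Finset.mem_erase.1 hb).1
  unfold Lagrange.basisDivisor
  have hn : ‖((e a : ℕ) : ℂ_[p]) - ((e b : ℕ) : ℂ_[p])‖ ≤ 1 := (OO p).sub_mem (l5_nat _) (l5_nat _)
  have hr : res (((e a : ℕ) : ℂ_[p]) - ((e b : ℕ) : ℂ_[p])) = ((e a : ℕ) : RF p) - ((e b : ℕ) : RF p) := by
    rw [res_sub (l5_nat _) (l5_nat _), res_natCast, res_natCast]
  have hr0 : res (((e a : ℕ) : ℂ_[p]) - ((e b : ℕ) : ℂ_[p])) ≠ 0 := by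
    rw [hr]
    intro h
    exact hab (he (sub_eq_zero.1 h)).symm
  have hn1 : ‖((e a : ℕ) : ℂ_[p]) - ((e b : ℕ) : ℂ_[p])‖ = 1 := (norm_eq_one_iff hn).2 hr0
  have hne : ((e a : ℕ) : ℂ_[p]) - ((e b : ℕ) : ℂ_[p]) ≠ 0 := by
    intro h
    rw [h, norm_zero] at hn1
    exact zero_ne_one hn1
  have hni : ‖(((e a : ℕ) : ℂ_[p]) - ((e b : ℕ) : ℂ_[p]))⁻¹‖ ≤ 1 := by
    rw [norm_inv, hn1, inv_one]
  have hri : res ((((e a : ℕ) : ℂ_[p]) - ((e b : ℕ) : ℂ_[p]))⁻¹) =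
      (((e a : ℕ) : RF p) - ((e b : ℕ) : RF p))⁻¹ := by
    have h1 : res ((((e a : ℕ) : ℂ_[p]) - ((e b : ℕ) : ℂ_[p]))⁻¹) *
        res (((e a : ℕ) : ℂ_[p]) - ((e b : ℕ) : ℂ_[p])) = 1 := by
      rw [← res_mul hni hn, inv_mul_cancel₀ hne, res_one]
    rw [hr] at h1
    exact eq_inv_of_mul_eq_one_left h1
  have hE : ∀ i : ℕ, ((i : ℕ) : ℂ_[p]) ∈ E := fun i => natCast_mem E i
  refine l5_Gd_mul ?_ ?_
  · rw [← hri]
    exact l5_Gd_C (E.inv_mem (E.sub_mem (hE _) (hE _))) hni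
  · have h1 := l5_Gd_X (hE (e b)) (l5_nat (e b))
    rwa [res_natCast] at h1

/-- interpolation, coefficientwise -/
theorem l5_interp {F : Type} [Field F] {n : ℕ} (v : Fin (n + 1) → F) (hv : Function.Injective v)
    (f : Polynomial F) (hf : f.natDegree ≤ n) (j : ℕ) :
    f.coeff j = ∑ a, f.eval (v a) * (Lagrange.basis Finset.univ v a).coeff j := by
  classical
  have h1 : f.degree < (Finset.univ : Finset (Fin (n + 1))).card := by
    rw [Finset.card_univ, Fintype.card_fin]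
    refine lt_of_le_of_lt degree_le_natDegree ?_
    exact_mod_cast Nat.lt_succ_of_le hf
  have h2 := Lagrange.eq_interpolate (s := Finset.univ) (v := v) hv.injOn h1
  conv_lhs => rw [h2]
  rw [Lagrange.interpolate_apply, finsetSum_coeff]
  refine Finset.sum_congr rfl fun a _ => ?_
  rw [coeff_C_mul]

end

/-- the reduction on a good disc -/
theorem l5_red (hL5A : ST_L5A) (hRDU : ST_RDU) {p n : ℕ} [Fact p.Prime] (hPP : PP p n)
    (K : KD p n) (a ϖ : K.A) (φ : Polynomial (RF p)) (hϖ : ϖ ≠ 0)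
    (hGD : GD K a ‖(ϖ : ℂ_[p])‖ φ) (τ : ℂ_[p]) (hτ : IsAlgebraic ℚ_[p] τ) (hτA : τ ∉ K.A)
    (hτd : ‖τ - a‖ < ‖(ϖ : ℂ_[p])‖) : Red (K.χ τ) φ := by
  classical
  obtain ⟨hχ0, hχn⟩ := K.χ0 τ hτ hτA
  obtain ⟨r1, _, r3, _, r5⟩ := hRDU p (K.χ τ)
  obtain ⟨φ', hφ', hφ'n⟩ := r1 hχ0
  obtain ⟨_, hφ0, hφn, _⟩ := id hGD
  obtain ⟨E, hE, hE0, hS⟩ := l4_fin K.E₀ K.fin₀ {(a : ℂ_[p]), (ϖ : ℂ_[p])}
    (by simp) (by
      intro x hx
      rcases hx with rfl | rfl
      · exact K.alg _ a.2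
      · exact K.alg _ ϖ.2)
  have haE : (a : ℂ_[p]) ∈ E := hS _ (by simp)
  have hϖE : (ϖ : ℂ_[p]) ∈ E := hS _ (by simp)
  have hn := hPP.npos
  set M : ℕ := 4 * n ^ 2 + 2 * n with hM
  have hMlt : ∀ i ∈ Finset.range M, i < 4 * n ^ 2 + 2 * n := fun i hi => Finset.mem_range.1 hi
  set J : Finset ℕ := (Finset.range M).filter
    (fun i : ℕ => φ.eval (i : RF p) ≠ 0 ∧ φ'.eval (i : RF p) ≠ 0) with hJ
  have hJlt : ∀ i ∈ J, i < 4 * n ^ 2 + 2 * n := fun i hi => hMlt i (Finset.mem_filter.1 hi).1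
  have hJinj := l5_inj hPP J hJlt
  have hcard : n + 1 ≤ J.card := by
    have h1 : (Finset.range M).filter (fun i : ℕ => φ.eval (i : RF p) = 0) ∪
        (Finset.range M).filter (fun i : ℕ => φ'.eval (i : RF p) = 0) ∪ J = Finset.range M := by
      ext i
      simp only [hJ, Finset.mem_union, Finset.mem_filter]
      tauto
    have h2 := l5_card φ hφ0 n hφn ((Finset.range M).filter
      (fun i : ℕ => φ.eval (i : RF p) = 0)) (l5_inj hPP _ fun i hi =>
        hMlt i (Finset.mem_filter.1 hi).1) (fun i hi => (Finset.mem_filter.1 hi).2)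
    have h3 := l5_card φ' hφ'.1 n (hφ'n.trans hχn) ((Finset.range M).filter
      (fun i : ℕ => φ'.eval (i : RF p) = 0)) (l5_inj hPP _ fun i hi =>
        hMlt i (Finset.mem_filter.1 hi).1) (fun i hi => (Finset.mem_filter.1 hi).2)
    have h4 := congrArg Finset.card h1
    rw [Finset.card_range] at h4
    have h5 := Finset.card_union_le ((Finset.range M).filter
      (fun i : ℕ => φ.eval (i : RF p) = 0) ∪
        (Finset.range M).filter (fun i : ℕ => φ'.eval (i : RF p) = 0)) J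
    have h6 := Finset.card_union_le ((Finset.range M).filter
      (fun i : ℕ => φ.eval (i : RF p) = 0))
        ((Finset.range M).filter (fun i : ℕ => φ'.eval (i : RF p) = 0))
    have h7 : 3 * n + 1 ≤ M := by
      rw [hM]
      nlinarith
    omega
  obtain ⟨i₀, hi₀⟩ : J.Nonempty := Finset.card_pos.1 (by omega)
  have hi0 := (Finset.mem_filter.1 hi₀).2
  have hval : ∀ i ∈ J, φ.eval (i : RF p) * φ'.eval (i₀ : RF p) =
      φ'.eval (i : RF p) * φ.eval (i₀ : RF p) := by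
    intro i hi
    have hi' := (Finset.mem_filter.1 hi).2
    obtain ⟨κ, g, hκE, hκ1, hκr, hg0, hg, hmain⟩ := hL5A p n hPP K a ϖ φ hϖ hGD E hE hE0 haE hϖE
      i i₀ hi'.1 hi0.1
    have hx : φ'.eval (res ((i : ℕ) : ℂ_[p])) ≠ 0 := by rw [res_natCast]; exact hi'.2
    have hx0 : φ'.eval (res ((i₀ : ℕ) : ℂ_[p])) ≠ 0 := by rw [res_natCast]; exact hi0.2
    obtain ⟨c1, _, _⟩ := r5 φ' _ _ hφ' (l5_nat i) (l5_nat i₀) hx
    obtain ⟨c2, _, c3⟩ := r5 φ' _ _ hφ' (l5_nat i₀) (l5_nat i) hx0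
    have h1 := hmain τ hτ hτA hτd c1 c2
    have hy : ‖(τ - (a : ℂ_[p])) / (ϖ : ℂ_[p])‖ < 1 := by
      rw [norm_div, div_lt_one]
      · exact hτd
      · rw [norm_pos_iff]
        intro h0
        exact hϖ (Subtype.ext h0)
    obtain ⟨_, t2, t3⟩ := l5_tsum g (fun k => (hg k).2) _ hy
    rw [hg0, res_one] at t3
    rw [h1, mul_div_cancel_right₀ _ c2, res_mul hκ1.le t2, t3, mul_one, hκr, res_natCast,
      res_natCast] at c3
    rwa [div_eq_div_iff hi0.1 hi0.2] at c3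
  have hprop : C (φ'.eval (i₀ : RF p)) * φ - C (φ.eval (i₀ : RF p)) * φ' = 0 := by
    by_contra hne
    have h1 := l5_card _ hne n ?_ J hJinj ?_
    · omega
    · refine (natDegree_sub_le _ _).trans (max_le ?_ ?_)
      · exact (natDegree_C_mul_le _ _).trans hφn
      · exact (natDegree_C_mul_le _ _).trans (hφ'n.trans hχn)
    · intro i hi
      rw [eval_sub, eval_mul, eval_mul, eval_C, eval_C]
      linear_combination hval i hi
  have hφeq : φ = C (φ.eval (i₀ : RF p) / φ'.eval (i₀ : RF p)) * φ' := by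
    have h1 := sub_eq_zero.1 hprop
    have h2 : C (φ'.eval (i₀ : RF p)) * (C (φ.eval (i₀ : RF p) / φ'.eval (i₀ : RF p)) * φ') =
        C (φ.eval (i₀ : RF p)) * φ' := by
      rw [← mul_assoc, ← C_mul, mul_div_cancel₀ _ hi0.2]
    rw [← h2] at h1
    exact mul_left_cancel₀ (by rw [Ne, C_eq_zero]; exact hi0.2) h1
  rw [hφeq]
  exact r3 φ' _ (div_ne_zero hi0.1 hi0.2) hφ'

theorem st_L5 (hL5A : ST_L5A) (hRDU : ST_RDU) : ST_L5 := by
  classical
  intro p n _ hPP K a ϖ φ hϖ hGD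
  refine ⟨fun τ hτ hτA hτd => l5_red hL5A hRDU hPP K a ϖ φ hϖ hGD τ hτ hτA hτd, ?_⟩
  intro E hE hE0 haE hϖE
  obtain ⟨_, hφ0, hφn, _⟩ := id hGD
  have hn := hPP.npos
  -- the nodes
  have hI : n + 1 ≤ ((Finset.range (4 * n ^ 2 + 2 * n)).filter
      (fun i : ℕ => φ.eval (i : RF p) ≠ 0)).card := by
    have h1 := Finset.card_filter_add_card_filter_not (s := Finset.range (4 * n ^ 2 + 2 * n))
      (fun i : ℕ => φ.eval (i : RF p) = 0)
    have h2 := l5_card φ hφ0 n hφn ((Finset.range (4 * n ^ 2 + 2 * n)).filter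
      (fun i : ℕ => φ.eval (i : RF p) = 0)) (l5_inj hPP _ fun i hi =>
        Finset.mem_range.1 (Finset.mem_filter.1 hi).1) (fun i hi => (Finset.mem_filter.1 hi).2)
    rw [Finset.card_range] at h1
    have h7 : 2 * n + 1 ≤ 4 * n ^ 2 + 2 * n := by nlinarith
    have h8 : ((Finset.range (4 * n ^ 2 + 2 * n)).filter
      (fun i : ℕ => ¬ φ.eval (i : RF p) = 0)).card = ((Finset.range (4 * n ^ 2 + 2 * n)).filter
      (fun i : ℕ => φ.eval (i : RF p) ≠ 0)).card := rfl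
    omega
  set e := Finset.orderEmbOfCardLe _ hI with he
  have hemem : ∀ b, e b ∈ ((Finset.range (4 * n ^ 2 + 2 * n)).filter
      (fun i : ℕ => φ.eval (i : RF p) ≠ 0)) := fun b => Finset.orderEmbOfCardLe_mem _ hI b
  have heφ : ∀ b, φ.eval ((e b : ℕ) : RF p) ≠ 0 := fun b => (Finset.mem_filter.1 (hemem b)).2
  have heinj : Function.Injective fun b => ((e b : ℕ) : RF p) := by
    intro b b' hb
    have h1 := l5_inj hPP _ (fun i hi => Finset.mem_range.1 (Finset.mem_filter.1 hi).1)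
      (hemem b) (hemem b') hb
    exact e.injective h1
  have heinjC : Function.Injective fun b => ((e b : ℕ) : ℂ_[p]) := by
    intro b b' hb
    exact e.injective (Nat.cast_injective hb)
  choose κ g hκE hκ1 hκr hg0 hg hmain using fun b : Fin (n + 1) =>
    hL5A p n hPP K a ϖ φ hϖ hGD E hE hE0 haE hϖE (e b) (e 0) (heφ b) (heφ 0)
  set L : Fin (n + 1) → Polynomial ℂ_[p] := fun b =>
    Lagrange.basis Finset.univ (fun b => ((e b : ℕ) : ℂ_[p])) b with hL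
  have hLg : ∀ b, l5_Gd E (L b) (Lagrange.basis Finset.univ (fun b => ((e b : ℕ) : RF p)) b) :=
    fun b => l5_Gd_basis (fun b => e b) heinj b
  have hterm : ∀ j k b, ‖κ b * g b k * (L b).coeff j‖ ≤ 1 := fun j k b =>
    l5_mul_le (l5_mul_le (hκ1 b).le (hg b k).2) (hLg b j).2.1
  refine ⟨fun j k => ∑ b, κ b * g b k * (L b).coeff j, ?_, ?_, ?_, ?_⟩
  · intro j k
    refine ⟨sum_mem fun b _ => mul_mem (mul_mem (hκE b) (hg b k).1) (hLg b j).1, ?_⟩
    exact (l5_res_sum _ _ fun b _ => hterm j k b).1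
  · refine ⟨(φ.eval ((e 0 : ℕ) : RF p))⁻¹, inv_ne_zero (heφ 0), fun j => ?_⟩
    rw [(l5_res_sum _ _ fun b _ => hterm j 0 b).2, l5_interp _ heinj φ hφn j, Finset.mul_sum]
    refine Finset.sum_congr rfl fun b _ => ?_
    rw [res_mul (l5_mul_le (hκ1 b).le (hg b 0).2) (hLg b j).2.1, res_mul (hκ1 b).le (hg b 0).2,
      hg0 b, res_one, mul_one, hκr b, (hLg b j).2.2]
    ring
  · intro j k hj
    refine Finset.sum_eq_zero fun b _ => ?_
    have h1 : (L b).coeff j = 0 := by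
      refine coeff_eq_zero_of_natDegree_lt ?_
      rw [hL, Lagrange.natDegree_basis heinjC.injOn (Finset.mem_univ b), Finset.card_univ,
        Fintype.card_fin]
      omega
    rw [h1, mul_zero]
  · intro τ hτ hτA hτd
    have hred := l5_red hL5A hRDU hPP K a ϖ φ hϖ hGD τ hτ hτA hτd
    obtain ⟨_, hχn⟩ := K.χ0 τ hτ hτA
    obtain ⟨_, _, _, _, r5⟩ := hRDU p (K.χ τ)
    have hev : ∀ b, (K.χ τ).eval ((e b : ℕ) : ℂ_[p]) ≠ 0 := fun b =>
      (r5 φ _ _ hred (l5_nat (e b)) (l5_nat (e b)) (by rw [res_natCast]; exact heφ b)).1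
    have hy : ‖(τ - (a : ℂ_[p])) / (ϖ : ℂ_[p])‖ < 1 := by
      rw [norm_div, div_lt_one]
      · exact hτd
      · rw [norm_pos_iff]
        intro h0
        exact hϖ (Subtype.ext h0)
    refine ⟨((K.χ τ).eval ((e 0 : ℕ) : ℂ_[p]))⁻¹, inv_ne_zero (hev 0), fun j => ?_⟩
    rw [l5_interp _ heinjC (K.χ τ) hχn j, Finset.mul_sum]
    have hs : ∀ b ∈ (Finset.univ : Finset (Fin (n + 1))), Summable (fun k =>
        κ b * g b k * (L b).coeff j * ((τ - (a : ℂ_[p])) / (ϖ : ℂ_[p])) ^ k) := by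
      intro b _
      exact (l5_tsum (fun k => κ b * g b k * (L b).coeff j) (fun k => hterm j k b) _ hy).1
    have h1 : (∑' k, (∑ b, κ b * g b k * (L b).coeff j) *
        ((τ - (a : ℂ_[p])) / (ϖ : ℂ_[p])) ^ k) =
        ∑ b, ∑' k, κ b * g b k * (L b).coeff j * ((τ - (a : ℂ_[p])) / (ϖ : ℂ_[p])) ^ k := by
      rw [← Summable.tsum_finsetSum hs]
      refine tsum_congr fun k => ?_
      rw [Finset.sum_mul]
    rw [h1]
    refine Finset.sum_congr rfl fun b _ => ?_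
    rw [hmain b τ hτ hτA hτd (hev b) (hev 0)]
    have h2 : (∑' k, κ b * g b k * (L b).coeff j * ((τ - (a : ℂ_[p])) / (ϖ : ℂ_[p])) ^ k) =
        κ b * (L b).coeff j * ∑' k, g b k * ((τ - (a : ℂ_[p])) / (ϖ : ℂ_[p])) ^ k := by
      rw [← tsum_mul_left]
      refine tsum_congr fun k => ?_
      ring
    rw [h2, hL]
    have h3 := hev 0
    field_simp

end Pool.Agent.Helper60.FF
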